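import Pool.Agent.Helper30.TQ.St

/-!
# Project TQ, module FIN: from the Thue equation to the planes `x - y = 2 t z`
-/

set_option autoImplicit false

namespace Pool.Agent.Helper36.TQ

open Pool.Agent.Helper30.TQ

/-- MODULE FIN -/
theorem hFIN (hT : StTHU) : StFIN := by
  intro t ht x y z h1 h2
  obtain ⟨X, hX⟩ : ∃ X : ℤ, X = y + t * z := ⟨_, rfl⟩
  have hy : y = X - t * z := by rw [hX]; ring
  have hx : x = X + t * z := by linear_combination h2 + hy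
  have h3 : 2 * X ^ 3 + 6 * t ^ 2 * X * z ^ 2 + z ^ 3 = 2 := by
    have h := h1
    rw [hx, hy] at h
    linear_combination h
  have hz2 : (2 : ℤ) ∣ z ^ 3 := ⟨1 - X ^ 3 - 3 * t ^ 2 * X * z ^ 2, by linear_combination h3⟩
  obtain ⟨Y, hY⟩ := Int.prime_two.dvd_of_dvd_pow hz2
  have h4 : X ^ 3 + 4 * (3 * t ^ 2) * X * Y ^ 2 + 4 * Y ^ 3 = 1 := by
    rw [hY] at h3
    have h5 : 2 * (X ^ 3 + 4 * (3 * t ^ 2) * X * Y ^ 2 + 4 * Y ^ 3) = 2 * 1 := by
      linear_combination h3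
    exact mul_left_cancel₀ two_ne_zero h5
  have ht2 : 1 ≤ t ^ 2 := by
    have : 0 < t ^ 2 := by positivity
    omega
  rcases hT (3 * t ^ 2) (by omega) ⟨t ^ 2, rfl⟩ X Y h4 with ⟨e1, e2⟩ | ⟨e1, e2⟩
  · left
    rw [e2] at hY
    have hz : z = 0 := by rw [hY]; ring
    refine ⟨?_, ?_, hz⟩
    · rw [hx, hz, e1]; ring
    · rw [hy, hz, e1]; ring
  · right
    rw [e2] at hY
    have hz : z = -6 * t ^ 2 := by rw [hY]; ring
    refine ⟨?_, ?_, hz⟩
    · rw [hx, hz, e1]; ring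
    · rw [hy, hz, e1]; ring

end Pool.Agent.Helper36.TQ
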